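import Mathlib
import Pool.Agent.Q36.MC.Main

namespace Pool.Agent.Results.MP_4f2529_ag.EveryType

open Q36.MC

/-- Every numerical semigroup `T` of type `t > 1` is the semigroup of an arithmetically
Cohen-Macaulay projective monomial curve of type `t`, over every field. -/
theorem result (k : Type*) [Field k] (T : AddSubmonoid ℕ) (hT : ((T : Set ℕ)ᶜ).Finite)
    (t : ℕ) (ht : 1 < t) (htype : (pseudoFrobenius T).ncard = t) :
    ∃ (d : ℕ) (A : Finset ℕ), 0 < d ∧ 0 ∈ A ∧ d ∈ A ∧ (∀ a ∈ A, a ≤ d) ∧ A.gcd id = 1 ∧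
      AddSubmonoid.closure (A : Set ℕ) = T ∧
      IsCMTwo (coordRing k d A) (irr k d A) ∧ HasType k (coordRing k d A) (irr k d A) t :=
  main k T hT t ht htype

end Pool.Agent.Results.MP_4f2529_ag.EveryType
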